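import Mathlib
import Pool.Graph.R_pool_sql_team_39128cda.H.MP_c6b127_co.Quad

set_option autoImplicit false

namespace Pool.Agent.Results.MP_c6b127_co.TwoUnequalOrbits

open Pool.Agent.H.MP_c6b127_co

/-- A finite generalised quadrangle of order `(s, t)`. -/
structure IsGQ {P L : Type} (I : P → L → Prop) (s t : ℕ) : Prop where
  on_line : ∀ l : L, Set.ncard {p : P | I p l} = s + 1
  on_point : ∀ p : P, Set.ncard {l : L | I p l} = t + 1
  unique : ∀ (p q : P) (l m : L), I p l → I q l → I p m → I q m → p = q ∨ l = m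
  project : ∀ (p : P) (l : L), ¬ I p l → ∃! x : P × L, I p x.2 ∧ I x.1 x.2 ∧ I x.1 l

variable {F : Type} [Field F]

lemma trans_mem [Finite F] (v : F × F × F) (a : F × F × F) (i : F ⊕ Bool) :
    ∃ g : Gp F, g • mkLn a i = mkLn (a + v) i := by
  obtain ⟨g, hg⟩ := mkG (F := F) (fun p => p) Function.injective_id (fun _ _ _ => rfl)
    (fun i => ⟨i, 1, one_ne_zero, by simp, Iff.rfl⟩) v
  refine ⟨g, Subtype.ext ?_⟩
  ext p
  have key : ∀ q, g • q ∈ (g • mkLn a i).1 ↔ q ∈ (mkLn a i).1 := fun q => g.2.1 q _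
  obtain ⟨q, rfl⟩ : ∃ q, g • q = p := ⟨p - v, by rw [hg]; simp⟩
  rw [key, hg]
  constructor
  · rintro ⟨c, rfl⟩
    exact ⟨c, by abel⟩
  · rintro ⟨c, hc⟩
    exact ⟨c, by
      have : q = a + v + c • dir i - v := by rw [← hc]; abel
      rw [this]; abel⟩

lemma dir_mem {i j : F ⊕ Bool} (g : Gp F) (c : F) (hc : c ≠ 0) (b : F × F × F)
    (hg0 : g • (0 : F × F × F) = b) (hg1 : g • dir i = c • dir j + b) :
    g • mkLn (0 : F × F × F) i = mkLn b j := by
  have key : ∀ q, g • q ∈ (g • mkLn (0 : F × F × F) i).1 ↔ q ∈ (mkLn (0 : F × F × F) i).1 :=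
    fun q => g.2.1 q _
  have h0 : b ∈ (g • mkLn (0 : F × F × F) i).1 := by
    rw [← hg0, key]; exact mem_self _ _
  have h1 : c • dir j + b ∈ (g • mkLn (0 : F × F × F) i).1 := by
    rw [← hg1, key]; exact ⟨1, by simp⟩
  have h2 : b ∈ (mkLn b j).1 := mem_self _ _
  have h3 : c • dir j + b ∈ (mkLn b j).1 := ⟨c, by abel⟩
  rcases two_pts _ _ _ _ h0 h1 h2 h3 with h | h
  · exact absurd (indep1 j c (by simpa using h)) hc
  · exact h

lemma orbit_base [Finite F] (l : Ln F) : l ∈ MulAction.orbit (Gp F) (mkLn (0 : F × F × F) (ty l)) := by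
  obtain ⟨a, i, e⟩ := l.2
  obtain ⟨g, hg⟩ := trans_mem a (0 : F × F × F) (ty l)
  refine ⟨g, ?_⟩
  change g • mkLn (0 : F × F × F) (ty l) = l
  have ha : a ∈ l.1 := by rw [e]; exact mem_self a i
  rw [hg, zero_add]
  exact (eq_mk ha).symm

lemma orbitA [Fintype F] (hF : Fintype.card F = 32) (i : F ⊕ Bool) (hi : isA i) :
    mkLn (0 : F × F × F) i ∈ MulAction.orbit (Gp F) (mkLn (0 : F × F × F) (Sum.inl 0)) := by
  obtain ⟨g, hg⟩ := mkC hF (0 : F × F × F)
  have e1 : g • mkLn (0 : F × F × F) (Sum.inl 0) = mkLn 0 (Sum.inr false) :=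
    dir_mem g 1 one_ne_zero 0 (by rw [hg]; simp) (by rw [hg]; simp [dir])
  have e2 : g • mkLn (0 : F × F × F) (Sum.inr false) = mkLn 0 (Sum.inr true) :=
    dir_mem g 1 one_ne_zero 0 (by rw [hg]; simp) (by rw [hg]; simp [dir])
  rcases hi with rfl | rfl | rfl
  · exact MulAction.mem_orbit_self _
  · exact ⟨g, e1⟩
  · exact ⟨g * g, by change (g * g) • _ = _; rw [mul_smul, e1, e2]⟩

lemma orbitB [Finite F] (i : F ⊕ Bool) (hi : ¬ isA i) :
    mkLn (0 : F × F × F) i ∈ MulAction.orbit (Gp F) (mkLn (0 : F × F × F) (Sum.inl 1)) := by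
  rcases i with s | _ | _
  · have hs : s ≠ 0 := fun h => hi (Or.inl (by rw [h]))
    obtain ⟨g, hg⟩ := mkD (1 : F) s one_ne_zero hs 0
    exact ⟨g, dir_mem g 1 one_ne_zero 0 (by rw [hg]; simp) (by rw [hg]; simp [dir])⟩
  · exact absurd (Or.inr (Or.inl rfl)) hi
  · exact absurd (Or.inr (Or.inr rfl)) hi

/-- There is a generalised quadrangle of order `(31, 33)` with a point-primitive group of
collineations that has exactly two line-orbits, of the different sizes `3 · 2 ^ 10` and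
`31 · 2 ^ 10`. -/
theorem result : ∃ (P L : Type) (_ : Finite P) (_ : Finite L) (I : P → L → Prop),
    IsGQ I 31 33 ∧
    ∃ (G : Type) (_ : Group G) (_ : MulAction G P) (_ : MulAction G L),
      (∀ (g : G) (p : P) (l : L), I (g • p) (g • l) ↔ I p l) ∧
      MulAction.IsPreprimitive G P ∧
      ∃ l₁ l₂ : L, (∀ l : L, l ∈ MulAction.orbit G l₁ ∨ l ∈ MulAction.orbit G l₂) ∧
        Set.ncard (MulAction.orbit G l₁) = 3 * 2 ^ 10 ∧
        Set.ncard (MulAction.orbit G l₂) = 31 * 2 ^ 10 := by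
  have : Fact (Nat.Prime 2) := ⟨Nat.prime_two⟩
  let F := GaloisField 2 5
  have := Fintype.ofFinite F
  have hF : Fintype.card F = 32 := by
    rw [← Nat.card_eq_fintype_card, GaloisField.card 2 5 (by norm_num)]
    norm_num
  have hinv : ∀ l m : Ln F, m ∈ MulAction.orbit (Gp F) l → (isA (ty m) ↔ isA (ty l)) := by
    rintro l m ⟨g, rfl⟩
    exact g.2.2 l
  have hA : isA (ty (mkLn (0 : F × F × F) (Sum.inl 0))) := by
    rw [ty_mk]
    exact Or.inl rfl
  have hB : ¬ isA (ty (mkLn (0 : F × F × F) (Sum.inl 1))) := by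
    rw [ty_mk]
    simp [isA]
  have o1 : MulAction.orbit (Gp F) (mkLn (0 : F × F × F) (Sum.inl 0)) = {l | isA (ty l)} := by
    ext l
    refine ⟨fun h => (hinv _ _ h).2 hA, fun h => ?_⟩
    have h1 := orbit_base l
    have h2 := orbitA hF (ty l) h
    rw [← MulAction.orbit_eq_iff] at h1 h2 ⊢
    exact h1.trans h2
  have o2 : MulAction.orbit (Gp F) (mkLn (0 : F × F × F) (Sum.inl 1)) = {l | ¬ isA (ty l)} := by
    ext l
    refine ⟨fun h h' => hB ((hinv _ _ h).1 h'), fun h => ?_⟩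
    have h1 := orbit_base l
    have h2 := orbitB (ty l) h
    rw [← MulAction.orbit_eq_iff] at h1 h2 ⊢
    exact h1.trans h2
  have h3 : {i : F ⊕ Bool | isA i}.ncard = 3 :=
    Set.ncard_eq_three.mpr ⟨Sum.inl 0, Sum.inr false, Sum.inr true, by simp, by simp, by simp, rfl⟩
  have h4 := Set.ncard_add_ncard_compl {i : F ⊕ Bool | isA i}
  rw [h3, Nat.card_eq_fintype_card, Fintype.card_sum, hF, Fintype.card_bool] at h4
  have h5 : {i : F ⊕ Bool | ¬ isA i}.ncard = 31 := by
    have : {i : F ⊕ Bool | ¬ isA i} = {i : F ⊕ Bool | isA i}ᶜ := rfl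
    rw [this]
    omega
  have c1 := count (F := F) isA
  have c2 := count (F := F) fun i => ¬ isA i
  rw [h3] at c1
  rw [h5] at c2
  simp only [Fintype.card_prod, hF] at c1 c2
  refine ⟨F × F × F, Ln F, inferInstance, inferInstance, fun p l => p ∈ l.1,
    ⟨fun l => by rw [ncard_line l, hF], fun p => ?_, two_pts, gq hF⟩, Gp F, inferInstance,
    actP, actL, fun g p l => g.2.1 p l, prim hF, mkLn 0 (Sum.inl 0), mkLn 0 (Sum.inl 1), ?_, ?_, ?_⟩
  · have := ncard_thru p (fun _ => True)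
    simp only [and_true, Set.ofPred_true, Set.ncard_univ, Nat.card_eq_fintype_card,
      Fintype.card_sum, hF, Fintype.card_bool] at this
    exact this
  · intro l
    rw [o1, o2]
    exact em _
  · rw [o1]; omega
  · rw [o2]; omega

end Pool.Agent.Results.MP_c6b127_co.TwoUnequalOrbits
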